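import Pool.Agent.helper67BR.Three
import Pool.Graph.R_seed8.Y16.BR.St

/-!
# Existence of the surfaces over every algebraically closed field which is of characteristic
different from three and not algebraic over a finite field
-/

set_option autoImplicit false

namespace Pool.Agent.H67BR

open Pool.Agent.Helper346.Bra Pool.Agent.Y16.BR

/-- The family, in every characteristic different from three. -/
theorem family (C : Type) [Field C] [IsAlgClosed C] (hC3 : (3 : C) ≠ 0) (V : ValuationSubring C)
    (b : Polynomial V) (h : GoodVal 3 V b) : HasClassThree C (cubic C (b.map (algebraMap V C))) := by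
  obtain ⟨hd, h3, hb⟩ := h
  obtain ⟨k1, k2, k3⟩ := main3 C hC3 V (by exact_mod_cast h3) b hb hd
  refine ⟨k1, k2, ?_⟩
  intro K i1 i2 i3 i4 i5
  exact @k3 K i1 i2 i3 i4 i5

section charp

variable (C : Type) [Field C] (p : ℕ) [hp : Fact p.Prime] [Algebra (ZMod p) C]

/-- an element of infinite multiplicative order is transcendental over the prime field -/
theorem transc (s : C) (hs0 : s ≠ 0) (hs : ∀ n : ℕ, 0 < n → s ^ n ≠ 1) :
    Transcendental (ZMod p) s := by
  intro halg
  have hint := halg.isIntegral
  haveI : FiniteDimensional (ZMod p) (IntermediateField.adjoin (ZMod p) {s}) :=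
    IntermediateField.adjoin.finiteDimensional hint
  haveI : Finite (IntermediateField.adjoin (ZMod p) {s}) := Module.finite_of_finite (ZMod p)
  have hg0 : IntermediateField.AdjoinSimple.gen (ZMod p) s ≠ 0 := by
    intro h
    apply hs0
    have := congrArg (algebraMap (IntermediateField.adjoin (ZMod p) {s}) C) h
    rwa [IntermediateField.AdjoinSimple.algebraMap_gen, map_zero] at this
  let g : (IntermediateField.adjoin (ZMod p) {s})ˣ := Units.mk0 _ hg0
  obtain ⟨n, hn, h⟩ := (isOfFinOrder_of_finite g).exists_pow_eq_one
  apply hs n hn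
  have h1 : IntermediateField.AdjoinSimple.gen (ZMod p) s ^ n = 1 := by
    have := congrArg Units.val h
    simpa [g] using this
  have h2 := congrArg (algebraMap (IntermediateField.adjoin (ZMod p) {s}) C) h1
  rwa [map_pow, IntermediateField.AdjoinSimple.algebraMap_gen, map_one] at h2

/-- a valuation ring in which a given transcendental element is not a unit -/
theorem exists_val_s (s : C) (hs : Transcendental (ZMod p) s) :
    ∃ V : ValuationSubring C, ∃ r : V, (r : C) = s ∧ IsLocalRing.residue V r = 0 := by
  let A : Subring C := (Polynomial.aeval (R := ZMod p) s).toRingHom.range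
  have hsA : s ∈ A := ⟨Polynomial.X, by simp⟩
  let sA : A := ⟨s, hsA⟩
  have hI : Ideal.span {sA} ≠ ⊤ := by
    intro h
    rw [Ideal.eq_top_iff_one, Ideal.mem_span_singleton] at h
    obtain ⟨⟨a, q, hq⟩, ha⟩ := h
    have h1 : (1 : C) = s * a := congrArg Subtype.val ha
    apply hs
    refine ⟨Polynomial.X * q - 1, ?_, ?_⟩
    · intro h0
      have := congrArg (Polynomial.eval 0) h0
      simp at this
    · have hq' : Polynomial.aeval s q = a := hq
      rw [map_sub, map_mul, Polynomial.aeval_X, map_one, hq', ← h1, sub_self]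
  obtain ⟨V, _, hV⟩ := Ideal.image_subset_nonunits_valuationSubring (Ideal.span {sA}) hI
  have h5 : s ∈ (V.nonunits : Set C) := hV ⟨sA, Ideal.subset_span rfl, rfl⟩
  rw [← V.image_maximalIdeal] at h5
  obtain ⟨r, hr, hr2⟩ := h5
  exact ⟨V, r, hr2, (IsLocalRing.residue_eq_zero_iff r).2 hr⟩

/-- Positive characteristic: the surface with `b = t - 1 + s t³`, `s` transcendental. -/
theorem transcendental_parameter [IsAlgClosed C] (hp3 : p ≠ 3) (s : C)
    (hs : Transcendental (ZMod p) s) :
    HasClassThree C (cubic C (Polynomial.X - 1 + Polynomial.C s * Polynomial.X ^ 3)) := by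
  have hpC : ((p : ℕ) : C) = 0 := by
    have h1 : ((p : ℕ) : ZMod p) = 0 := by simp
    have h2 := congrArg (algebraMap (ZMod p) C) h1
    rwa [map_natCast, map_zero] at h2
  have hC3 : ((3 : ℕ) : C) ≠ 0 := other_ne_zero hp.out Nat.prime_three hp3 hpC
  obtain ⟨V, r, hr, hr0⟩ := exists_val_s C p s hs
  have hs0 : s ≠ 0 := by
    rintro rfl
    exact hs (isAlgebraic_zero)
  have hrne : r ≠ 0 := by
    intro h
    apply hs0
    rw [← hr, h]
    rfl
  have hpV : ((p : ℕ) : V) = 0 := by
    apply Subtype.ext
    have : (((p : ℕ) : V) : C) = ((p : ℕ) : C) := by simp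
    rw [this, hpC]
    rfl
  have hpR : ((p : ℕ) : IsLocalRing.ResidueField V) = 0 := by
    have h2 := congrArg (IsLocalRing.residue V) hpV
    rwa [map_natCast, map_zero] at h2
  have hgood : GoodVal 3 V (Polynomial.X - 1 + Polynomial.C r * Polynomial.X ^ 3) := by
    refine ⟨?_, other_ne_zero hp.out Nat.prime_three hp3 hpR, ?_⟩
    · have : (Polynomial.X - 1 + Polynomial.C r * Polynomial.X ^ 3 : Polynomial V).natDegree =
          3 := by
        compute_degree!
      rw [this]
    · simp [hr0]
  have h := family C (by exact_mod_cast hC3) V _ hgood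
  have e : (Polynomial.X - 1 + Polynomial.C r * Polynomial.X ^ 3 : Polynomial V).map
      (algebraMap V C) = Polynomial.X - 1 + Polynomial.C s * Polynomial.X ^ 3 := by
    have hr' : algebraMap V C r = s := hr
    simp [hr']
  rwa [e] at h

end charp

/-- Existence over every algebraically closed field of characteristic different from three with an
element of infinite multiplicative order. -/
theorem existence (C : Type) [Field C] [IsAlgClosed C] (hC3 : (3 : C) ≠ 0)
    (hC : ∃ s : C, s ≠ 0 ∧ ∀ n : ℕ, 0 < n → s ^ n ≠ 1) :
    ∃ F : MvPolynomial (Fin 4) (RatFunc C), HasClassThree C F := by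
  obtain ⟨p, hp⟩ := CharP.exists C
  rcases CharP.char_is_prime_or_zero C p with h | h
  · haveI : Fact p.Prime := ⟨h⟩
    letI : Algebra (ZMod p) C := ZMod.algebra C p
    obtain ⟨s, hs0, hs⟩ := hC
    refine ⟨_, transcendental_parameter C p ?_ s (transc C p s hs0 hs)⟩
    rintro rfl
    apply hC3
    have := CharP.cast_eq_zero C 3
    exact_mod_cast this
  · subst h
    haveI : CharZero C := CharP.charP_to_charZero C
    exact ⟨_, three_int _ good_three C⟩

end Pool.Agent.H67BR
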